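import Pool.Agent.Helper65.TU.Stmts

/-! TU row MAZ. -/

open Set Filter Topology

namespace Pool.Agent.Helper65.TU

universe u

namespace S2

variable {X : Type u} [NormedAddCommGroup X] [NormedSpace ℝ X]

/-- functionals are weakly continuous -/
theorem cont_weak (f : X →L[ℝ] ℝ) :
    Continuous fun w : WeakSpace ℝ X => f ((toWeakSpace ℝ X).symm w) :=
  WeakBilin.eval_continuous (topDualPairing ℝ X).flip f

end S2

open S2

/-- (MAZ) -/
theorem st_MAZ : ST_MAZ.{u} := by
  intro X _ _ θ x f hJ L hL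
  by_contra hcon
  push Not at hcon
  have hl : ∀ k : ℕ, ∃ l ∈ L, ‖x k - l‖ ≤ θ / 4 := by
    intro k
    obtain ⟨n, hn, hk⟩ := hcon k
    exact hn k hk.le
  choose l hlL hlx using hl
  have hθ := hJ.pos
  have hfl : ∀ n m, |f n (x m) - f n (l m)| ≤ θ / 4 := by
    intro n m
    rw [← map_sub]
    refine ((f n).le_opNorm _).trans ?_
    calc ‖f n‖ * ‖x m - l m‖ ≤ 1 * (θ / 4) :=
          mul_le_mul (hJ.nf n) (hlx m) (norm_nonneg _) zero_le_one
      _ = θ / 4 := one_mul _
  have hge : ∀ n m, n ≤ m → 3 * θ / 4 ≤ f n (l m) := by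
    intro n m hnm
    have h1 := abs_le.1 (hfl n m)
    have h2 := hJ.ge n m hnm
    linarith [h1.2]
  have hle : ∀ n m, m < n → f n (l m) ≤ θ / 4 := by
    intro n m hnm
    have h1 := abs_le.1 (hfl n m)
    have h2 := hJ.ze n m hnm
    linarith [h1.1]
  -- the cluster point
  obtain ⟨a, ⟨l₀, hl₀, rfl⟩, ha⟩ := hL (f := map (fun m => toWeakSpace ℝ X (l m)) atTop)
    (by
      rw [le_principal_iff, mem_map]
      exact Eventually.of_forall fun m => mem_image_of_mem _ (hlL m))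
  have hln : ∀ n, 3 * θ / 4 ≤ f n l₀ := by
    intro n
    have hcl : IsClosed {w : WeakSpace ℝ X | 3 * θ / 4 ≤ f n ((toWeakSpace ℝ X).symm w)} :=
      isClosed_le continuous_const (cont_weak (f n))
    have h1 : ClusterPt (toWeakSpace ℝ X l₀)
        (𝓟 {w : WeakSpace ℝ X | 3 * θ / 4 ≤ f n ((toWeakSpace ℝ X).symm w)}) := by
      refine ha.mono ?_
      rw [le_principal_iff, mem_map]
      filter_upwards [eventually_ge_atTop n] with m hm
      change 3 * θ / 4 ≤ f n ((toWeakSpace ℝ X).symm (toWeakSpace ℝ X (l m)))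
      rw [LinearEquiv.symm_apply_apply]
      exact hge n m hm
    have h2 := isClosed_iff_clusterPt.1 hcl _ h1
    change 3 * θ / 4 ≤ f n ((toWeakSpace ℝ X).symm (toWeakSpace ℝ X l₀)) at h2
    rwa [LinearEquiv.symm_apply_apply] at h2
  -- the convex set
  let C : Set X := {y | ∃ M : ℕ, ∀ n, M ≤ n → f n y ≤ θ / 4}
  have hC : Convex ℝ C := by
    intro y hy z hz a b ha hb hab
    obtain ⟨M, hM⟩ := hy
    obtain ⟨M', hM'⟩ := hz
    refine ⟨max M M', fun n hn => ?_⟩
    have h1 := hM n ((le_max_left _ _).trans hn)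
    have h2 := hM' n ((le_max_right _ _).trans hn)
    rw [map_add, map_smul, map_smul, smul_eq_mul, smul_eq_mul]
    have h3 := mul_le_mul_of_nonneg_left h1 ha
    have h4 := mul_le_mul_of_nonneg_left h2 hb
    have h5 : a * (θ / 4) + b * (θ / 4) = θ / 4 := by
      rw [← add_mul, hab, one_mul]
    linarith
  have hcl : toWeakSpace ℝ X l₀ ∈ closure (toWeakSpace ℝ X '' C) := by
    rw [mem_closure_iff_clusterPt]
    refine ha.mono ?_
    rw [le_principal_iff, mem_map]
    exact Eventually.of_forall fun m =>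
      mem_image_of_mem _ ⟨m + 1, fun n hn => hle n m (Nat.lt_of_succ_le hn)⟩
  rw [← hC.toWeakSpace_closure ℝ] at hcl
  obtain ⟨y₀, hy₀, hy₁⟩ := hcl
  have hy₂ : y₀ = l₀ := (toWeakSpace ℝ X).injective hy₁
  subst hy₂
  rw [Metric.mem_closure_iff] at hy₀
  obtain ⟨y, ⟨M, hM⟩, hy⟩ := hy₀ (θ / 4) (by linarith)
  have h1 := hln M
  have h2 := hM M le_rfl
  have h3 : |f M y₀ - f M y| ≤ θ / 4 := by
    rw [← map_sub]
    refine ((f M).le_opNorm _).trans ?_
    rw [dist_eq_norm] at hy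
    calc ‖f M‖ * ‖y₀ - y‖ ≤ 1 * (θ / 4) :=
          mul_le_mul (hJ.nf M) hy.le (norm_nonneg _) zero_le_one
      _ = θ / 4 := one_mul _
  have h4 := (abs_le.1 h3).2
  linarith

end Pool.Agent.Helper65.TU
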